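import Mathlib

/-!
Definitions for the continuity of the Lempert function.
-/

set_option autoImplicit false

open Metric Set Filter Topology

namespace Pool.Agent.V1171.LC

section
variable {E : Type*} [NormedAddCommGroup E] [NormedSpace ℂ E]

/-- `f` is an analytic disc in `D` with `f 0 = z` and `f l = w`. -/
def IsDisc (D : Set E) (f : ℂ → E) (l : ℂ) (z w : E) : Prop :=
  DifferentiableOn ℂ f (ball 0 1) ∧ MapsTo f (ball 0 1) D ∧ l ∈ ball (0 : ℂ) 1 ∧ f 0 = z ∧ f l = w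

/-- The Lempert function of `D`. -/
noncomputable def lempert (D : Set E) (z w : E) : ℝ :=
  sInf {t : ℝ | ∃ (f : ℂ → E) (l : ℂ), IsDisc D f l z w ∧ t = Real.artanh ‖l‖}

/-- `u` is plurisubharmonic on `D` (for real valued `u`). -/
def IsPsh (D : Set E) (u : E → ℝ) : Prop :=
  UpperSemicontinuousOn u D ∧ ∀ z v : E, (∀ ζ : ℂ, ‖ζ‖ ≤ 1 → z + ζ • v ∈ D) →
    u z ≤ Real.circleAverage (fun ζ : ℂ => u (z + ζ • v)) 0 1

/-- `D` is pseudoconvex: `- log dist(z, ∂D)` is plurisubharmonic on `D`. -/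
def IsPseudoconvex (D : Set E) : Prop :=
  IsPsh D (fun z => -Real.log (infDist z Dᶜ))

/-- `D` has `C¹`-smooth boundary. -/
def HasC1Boundary [NormedSpace ℝ E] (D : Set E) : Prop :=
  ∀ p ∈ frontier D, ∃ (V : Set E) (ρ : E → ℝ), IsOpen V ∧ p ∈ V ∧ ContDiffOn ℝ 1 ρ V ∧
    (∀ x ∈ V, fderiv ℝ ρ x ≠ 0) ∧ D ∩ V = {x ∈ V | ρ x < 0}

/-- The infimum of `‖l‖` over the same discs. -/
noncomputable def kob (D : Set E) (z w : E) : ℝ :=
  sInf {t : ℝ | ∃ (f : ℂ → E) (l : ℂ), IsDisc D f l z w ∧ t = ‖l‖}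

end

/-- The spherical shell. -/
def shell (E : Type*) [NormedAddCommGroup E] (a : ℝ) : Set E := {x | a < ‖x‖ ∧ ‖x‖ < 1}

end Pool.Agent.V1171.LC
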