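import Pool.Agent.V1171.LC.Lsc

/-!
Any two points of the shell lie on an analytic disc.
-/

set_option autoImplicit false

open Metric Set Filter Topology

namespace Pool.Agent.V1171.LC

/-- A general lemma: discs through the ends of an entire curve. -/
theorem exists_disc {E : Type*} [NormedAddCommGroup E] [NormedSpace ℂ E] {D : Set E}
    (hD : IsOpen D) {Γ : ℂ → E} (hΓ : Differentiable ℂ Γ)
    (hΓD : ∀ x : ℝ, x ∈ Icc (-1 : ℝ) 1 → Γ x ∈ D) : ∃ f l, IsDisc D f l (Γ 1) (Γ (-1)) := by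
  -- a neighbourhood of `[-1, 1]`
  have hK : IsCompact ((fun x : ℝ => (x : ℂ)) '' Icc (-1 : ℝ) 1) :=
    isCompact_Icc.image Complex.continuous_ofReal
  have hO : IsOpen (Γ ⁻¹' D) := hD.preimage hΓ.continuous
  have hKO : ((fun x : ℝ => (x : ℂ)) '' Icc (-1 : ℝ) 1) ⊆ Γ ⁻¹' D := by
    rintro _ ⟨x, hx, rfl⟩
    exact hΓD x hx
  obtain ⟨δ, hδ, hδD⟩ := hK.exists_cthickening_subset_open hO hKO
  have hc : Continuous fun b : ℝ => |Real.cosh b - 1| + |Real.sinh b| := by
    have h1 := Real.continuous_cosh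
    have h2 := Real.continuous_sinh
    fun_prop
  have hev : ∀ᶠ b : ℝ in 𝓝 0, |Real.cosh b - 1| + |Real.sinh b| < δ := by
    apply hc.continuousAt.eventually_lt_const
    simpa using hδ
  obtain ⟨η, hη, hηb⟩ := Metric.eventually_nhds_iff_ball.mp hev
  set T : ℂ → ℂ := fun ζ => (2 * η / Real.pi : ℝ) * Complex.log ((1 + ζ) / (1 - ζ)) with hT
  have hpos : ∀ ζ ∈ ball (0 : ℂ) 1, 0 < ((1 + ζ) / (1 - ζ)).re := by
    intro ζ hζ
    have hζ1 : ‖ζ‖ < 1 := mem_ball_zero_iff.mp hζ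
    have hne : 1 - ζ ≠ 0 := by
      intro h
      have : ζ = 1 := (sub_eq_zero.mp h).symm
      rw [this, norm_one] at hζ1
      exact lt_irrefl _ hζ1
    have h1 : (1 + ζ) / (1 - ζ) = ((1 + ζ) * (starRingEnd ℂ) (1 - ζ)) / (‖1 - ζ‖ ^ 2 : ℝ) := by
      have h2 : (starRingEnd ℂ) (1 - ζ) ≠ 0 := by
        rw [Ne, map_eq_zero]; exact hne
      have h3 : ((‖1 - ζ‖ ^ 2 : ℝ) : ℂ) = (1 - ζ) * (starRingEnd ℂ) (1 - ζ) := by
        rw [Complex.mul_conj, Complex.normSq_eq_norm_sq]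
      rw [h3, mul_div_mul_right _ _ h2]
    rw [h1, Complex.div_ofReal_re]
    apply div_pos
    · have h4 : ((1 + ζ) * (starRingEnd ℂ) (1 - ζ)).re = 1 - ‖ζ‖ ^ 2 := by
        rw [← Complex.normSq_eq_norm_sq, Complex.normSq_apply]
        simp
        ring
      rw [h4]
      nlinarith [norm_nonneg ζ]
    · have := norm_pos_iff.mpr hne
      positivity
  have hTd : DifferentiableOn ℂ T (ball 0 1) := by
    intro ζ hζ
    have hζ1 : ‖ζ‖ < 1 := mem_ball_zero_iff.mp hζ
    have hne : 1 - ζ ≠ 0 := by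
      intro h
      have : ζ = 1 := (sub_eq_zero.mp h).symm
      rw [this, norm_one] at hζ1
      exact lt_irrefl _ hζ1
    apply DifferentiableAt.differentiableWithinAt
    apply DifferentiableAt.const_mul
    apply DifferentiableAt.clog
    · exact DifferentiableAt.div (by fun_prop) (by fun_prop) hne
    · exact Complex.mem_slitPlane_iff.mpr (Or.inl (hpos ζ hζ))
  have hTim : ∀ ζ ∈ ball (0 : ℂ) 1, |(T ζ).im| < η := by
    intro ζ hζ
    have h1 : (T ζ).im = (2 * η / Real.pi) * Complex.arg ((1 + ζ) / (1 - ζ)) := by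
      rw [hT]
      simp only
      rw [Complex.im_ofReal_mul, Complex.log_im]
    have h2 : |Complex.arg ((1 + ζ) / (1 - ζ))| < Real.pi / 2 :=
      Complex.abs_arg_lt_pi_div_two_iff.mpr (Or.inl (hpos ζ hζ))
    rw [h1, abs_mul, abs_of_pos (by positivity)]
    calc 2 * η / Real.pi * |Complex.arg ((1 + ζ) / (1 - ζ))|
        < 2 * η / Real.pi * (Real.pi / 2) := by gcongr
      _ = η := by field_simp
  set L : ℝ := Real.exp (Real.pi ^ 2 / (2 * η)) with hL
  have hL1 : 1 < L := Real.one_lt_exp_iff.mpr (by positivity)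
  set l : ℝ := (L - 1) / (L + 1) with hl
  have hl0 : 0 < l := div_pos (by linarith) (by linarith)
  have hl1 : l < 1 := (div_lt_one (by linarith)).mpr (by linarith)
  have hTl : T l = Real.pi := by
    have h1 : (1 + (l : ℂ)) / (1 - l) = (L : ℂ) := by
      have h2 : (1 + l) / (1 - l) = L := by
        rw [hl]
        field_simp
        ring
      rw [← h2]
      push_cast
      ring
    rw [hT]
    simp only
    rw [h1, hL, ← Complex.ofReal_log (Real.exp_pos _).le, Real.log_exp, ← Complex.ofReal_mul]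
    congr 1
    field_simp
  refine ⟨fun ζ => Γ (Complex.cos (T ζ)), l, ?_, ?_, ?_, ?_, ?_⟩
  · exact hΓ.comp_differentiableOn (Complex.differentiable_cos.comp_differentiableOn hTd)
  · intro ζ hζ
    change Complex.cos (T ζ) ∈ Γ ⁻¹' D
    apply hδD
    have hb := hTim ζ hζ
    set x := (T ζ).re with hx
    set b := (T ζ).im with hbdef
    have hTx : T ζ = x + b * Complex.I := (Complex.re_add_im (T ζ)).symm
    have hmem : ((Real.cos x : ℝ) : ℂ) ∈ (fun x : ℝ => (x : ℂ)) '' Icc (-1 : ℝ) 1 :=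
      ⟨Real.cos x, Real.cos_mem_Icc x, rfl⟩
    apply closedBall_subset_cthickening hmem δ
    rw [mem_closedBall, dist_eq_norm]
    have hdiff : Complex.cos (T ζ) - ((Real.cos x : ℝ) : ℂ) =
        ((Real.cos x * (Real.cosh b - 1) : ℝ) : ℂ) -
          ((Real.sin x * Real.sinh b : ℝ) : ℂ) * Complex.I := by
      rw [hTx, Complex.cos_add_mul_I]
      push_cast
      ring
    rw [hdiff]
    have hbb := hηb b (by rw [mem_ball_zero_iff, Real.norm_eq_abs]; exact hb)
    refine le_trans ?_ hbb.le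
    refine (norm_sub_le _ _).trans ?_
    rw [norm_mul, Complex.norm_I, mul_one, Complex.norm_real, Complex.norm_real, norm_mul,
      norm_mul, Real.norm_eq_abs, Real.norm_eq_abs, Real.norm_eq_abs, Real.norm_eq_abs]
    have c1 := Real.abs_cos_le_one x
    have c2 := Real.abs_sin_le_one x
    nlinarith [abs_nonneg (Real.cosh b - 1), abs_nonneg (Real.sinh b)]
  · rw [mem_ball_zero_iff, Complex.norm_real, Real.norm_of_nonneg hl0.le]
    exact hl1
  · have : T 0 = 0 := by simp [hT]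
    simp [this]
  · simp only
    rw [hTl, Complex.cos_pi]

variable {E : Type*} [NormedAddCommGroup E] [InnerProductSpace ℂ E]

theorem norm_rot {u v : E} (hu : ‖u‖ = 1) (hv : ‖v‖ = 1) (huv : (inner ℂ u v).re = 0) (θ : ℝ) :
    ‖(Real.cos θ : ℂ) • u + (Real.sin θ : ℂ) • v‖ = 1 := by
  have h1 : ‖(Real.cos θ : ℂ) • u + (Real.sin θ : ℂ) • v‖ ^ 2 = 1 := by
    rw [norm_add_sq (𝕜 := ℂ), norm_smul, norm_smul, inner_smul_left, inner_smul_right, hu, hv,
      Complex.conj_ofReal, Complex.norm_real, Complex.norm_real]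
    have h2 : (RCLike.re ((Real.cos θ : ℂ) * ((Real.sin θ : ℂ) * inner ℂ u v)) : ℝ) = 0 := by
      change ((Real.cos θ : ℂ) * ((Real.sin θ : ℂ) * inner ℂ u v)).re = 0
      rw [Complex.re_ofReal_mul, Complex.re_ofReal_mul, huv]
      ring
    rw [h2]
    simp only [mul_one, Real.norm_eq_abs, sq_abs, mul_zero, add_zero]
    exact Real.cos_sq_add_sin_sq θ
  nlinarith [norm_nonneg ((Real.cos θ : ℂ) • u + (Real.sin θ : ℂ) • v)]

theorem exists_rot {u q : E} (hu : ‖u‖ = 1) (hq : ‖q‖ = 1) : ∃ (φ : ℝ) (v : E), ‖v‖ = 1 ∧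
    (inner ℂ u v).re = 0 ∧ q = (Real.cos φ : ℂ) • u + (Real.sin φ : ℂ) • v := by
  set c : ℝ := (inner ℂ u q).re with hc
  have hcle : |c| ≤ 1 := by
    have h1 := Complex.abs_re_le_norm (inner ℂ u q)
    have h2 := norm_inner_le_norm (𝕜 := ℂ) u q
    rw [hu, hq, one_mul] at h2
    exact h1.trans h2
  obtain ⟨hc1, hc2⟩ := abs_le.mp hcle
  set p : E := q - (c : ℂ) • u with hp
  have hup : (inner ℂ u p).re = 0 := by
    rw [hp, inner_sub_right, inner_smul_right, inner_self_eq_norm_sq_to_K, hu]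
    simp [← hc]
  have hpn : ‖p‖ ^ 2 = 1 - c ^ 2 := by
    have h1 : q = (c : ℂ) • u + p := by rw [hp]; abel
    have h2 : ‖q‖ ^ 2 = ‖(c : ℂ) • u + p‖ ^ 2 := by rw [← h1]
    rw [hq, norm_add_sq (𝕜 := ℂ), norm_smul, hu, inner_smul_left, Complex.conj_ofReal,
      Complex.norm_real] at h2
    have h3 : (RCLike.re ((c : ℂ) * inner ℂ u p) : ℝ) = 0 := by
      change ((c : ℂ) * inner ℂ u p).re = 0
      rw [Complex.re_ofReal_mul, hup, mul_zero]
    rw [h3] at h2
    simp only [mul_one, Real.norm_eq_abs, sq_abs, mul_zero, add_zero] at h2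
    linarith
  have hcos : Real.cos (Real.arccos c) = c := Real.cos_arccos hc1 hc2
  have hsin : Real.sin (Real.arccos c) = ‖p‖ := by
    rw [Real.sin_arccos, ← hpn, Real.sqrt_sq (norm_nonneg _)]
  by_cases hp0 : p = 0
  · refine ⟨Real.arccos c, Complex.I • u, ?_, ?_, ?_⟩
    · rw [norm_smul, Complex.norm_I, hu, one_mul]
    · rw [inner_smul_right, inner_self_eq_norm_sq_to_K, hu]
      simp
    · rw [hcos, hsin, hp0, norm_zero, Complex.ofReal_zero, zero_smul, add_zero]
      rw [hp, sub_eq_zero] at hp0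
      exact hp0
  · have hpn0 : ‖p‖ ≠ 0 := norm_ne_zero_iff.mpr hp0
    have hpC : (‖p‖ : ℂ) ≠ 0 := by exact_mod_cast hpn0
    refine ⟨Real.arccos c, ((‖p‖ : ℂ)⁻¹) • p, ?_, ?_, ?_⟩
    · rw [norm_smul, norm_inv, Complex.norm_real, norm_norm, inv_mul_cancel₀ hpn0]
    · rw [inner_smul_right, ← Complex.ofReal_inv, Complex.re_ofReal_mul, hup, mul_zero]
    · rw [hcos, hsin, smul_smul, mul_inv_cancel₀ hpC, one_smul, hp]
      abel

theorem shell_disc {a : ℝ} (ha : 0 < a) (z : E) (hz : z ∈ shell E a) (w : E)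
    (hw : w ∈ shell E a) : ∃ f l, IsDisc (shell E a) f l z w := by
  obtain ⟨hz1, hz2⟩ := hz
  obtain ⟨hw1, hw2⟩ := hw
  have hzp : 0 < ‖z‖ := ha.trans hz1
  have hwp : 0 < ‖w‖ := ha.trans hw1
  have hzC : (‖z‖ : ℂ) ≠ 0 := by exact_mod_cast hzp.ne'
  have hwC : (‖w‖ : ℂ) ≠ 0 := by exact_mod_cast hwp.ne'
  set u : E := ((‖z‖ : ℂ)⁻¹) • z with hu
  set q : E := ((‖w‖ : ℂ)⁻¹) • w with hq
  have hun : ‖u‖ = 1 := by
    rw [hu, norm_smul, norm_inv, Complex.norm_real, norm_norm, inv_mul_cancel₀ hzp.ne']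
  have hqn : ‖q‖ = 1 := by
    rw [hq, norm_smul, norm_inv, Complex.norm_real, norm_norm, inv_mul_cancel₀ hwp.ne']
  obtain ⟨φ, v, hvn, huv, hqe⟩ := exists_rot hun hqn
  set α : ℝ := (Real.log ‖z‖ + Real.log ‖w‖) / 2 with hα
  set β : ℝ := (Real.log ‖z‖ - Real.log ‖w‖) / 2 with hβ
  set Γ : ℂ → E := fun s => Complex.exp (α + β * s) •
    (Complex.cos (φ * (1 - s) / 2) • u + Complex.sin (φ * (1 - s) / 2) • v) with hΓ
  have hΓd : Differentiable ℂ Γ := by
    have h1 : Differentiable ℂ fun s : ℂ => Complex.exp (α + β * s) := by fun_prop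
    have h2 : Differentiable ℂ fun s : ℂ => Complex.cos (φ * (1 - s) / 2) := by fun_prop
    have h3 : Differentiable ℂ fun s : ℂ => Complex.sin (φ * (1 - s) / 2) := by fun_prop
    exact h1.smul ((h2.smul_const u).add (h3.smul_const v))
  have hΓn : ∀ x : ℝ, ‖Γ x‖ = Real.exp (α + β * x) := by
    intro x
    have e1 : Complex.cos (φ * (1 - (x : ℂ)) / 2) = (Real.cos (φ * (1 - x) / 2) : ℂ) := by
      push_cast; rfl
    have e2 : Complex.sin (φ * (1 - (x : ℂ)) / 2) = (Real.sin (φ * (1 - x) / 2) : ℂ) := by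
      push_cast; rfl
    have e3 : Complex.exp (α + β * (x : ℂ)) = (Real.exp (α + β * x) : ℂ) := by
      push_cast; rfl
    rw [hΓ]
    simp only
    rw [e1, e2, e3, norm_smul, norm_rot hun hvn huv, mul_one, Complex.norm_real,
      Real.norm_of_nonneg (Real.exp_pos _).le]
  have hΓD : ∀ x : ℝ, x ∈ Icc (-1 : ℝ) 1 → Γ x ∈ shell E a := by
    intro x hx
    have hlz1 : Real.log a < Real.log ‖z‖ := Real.log_lt_log ha hz1
    have hlw1 : Real.log a < Real.log ‖w‖ := Real.log_lt_log ha hw1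
    have hlz2 : Real.log ‖z‖ < 0 := Real.log_neg hzp hz2
    have hlw2 : Real.log ‖w‖ < 0 := Real.log_neg hwp hw2
    have e : α + β * x = (1 + x) / 2 * Real.log ‖z‖ + (1 - x) / 2 * Real.log ‖w‖ := by
      rw [hα, hβ]; ring
    obtain ⟨hx1, hx2⟩ := hx
    have hboth : Real.log a < α + β * x ∧ α + β * x < 0 := by
      rw [e]
      rcases le_total (Real.log ‖z‖) (Real.log ‖w‖) with h | h
      · have h3 : 0 ≤ (1 - x) * (Real.log ‖w‖ - Real.log ‖z‖) :=
          mul_nonneg (by linarith) (by linarith)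
        have h4 : 0 ≤ (1 + x) * (Real.log ‖w‖ - Real.log ‖z‖) :=
          mul_nonneg (by linarith) (by linarith)
        constructor <;> nlinarith
      · have h3 : 0 ≤ (1 - x) * (Real.log ‖z‖ - Real.log ‖w‖) :=
          mul_nonneg (by linarith) (by linarith)
        have h4 : 0 ≤ (1 + x) * (Real.log ‖z‖ - Real.log ‖w‖) :=
          mul_nonneg (by linarith) (by linarith)
        constructor <;> nlinarith
    obtain ⟨hlow, hup⟩ := hboth
    constructor
    · rw [hΓn, ← Real.log_lt_iff_lt_exp ha]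
      exact hlow
    · rw [hΓn]
      rw [← Real.exp_zero]
      exact Real.exp_lt_exp.mpr hup
  have hres := exists_disc (isOpen_shell a) hΓd hΓD
  have hΓ1 : Γ 1 = z := by
    rw [hΓ]
    simp only [sub_self, mul_zero, zero_div, Complex.cos_zero, Complex.sin_zero, one_smul,
      zero_smul, add_zero, mul_one]
    rw [← Complex.ofReal_add, ← Complex.ofReal_exp, show α + β = Real.log ‖z‖ by rw [hα, hβ]; ring,
      Real.exp_log hzp, hu, smul_smul, mul_inv_cancel₀ hzC, one_smul]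
  have hΓ2 : Γ (-1) = w := by
    rw [hΓ]
    simp only
    have e1 : (φ : ℂ) * (1 - -1) / 2 = φ := by ring
    have e2 : (α : ℂ) + β * -1 = ((Real.log ‖w‖ : ℝ) : ℂ) := by
      rw [hα, hβ]; push_cast; ring
    rw [e1, e2, ← Complex.ofReal_cos, ← Complex.ofReal_sin, ← hqe, ← Complex.ofReal_exp,
      Real.exp_log hwp, hq, smul_smul, mul_inv_cancel₀ hwC, one_smul]
  rw [hΓ1, hΓ2] at hres
  exact hres

end Pool.Agent.V1171.LC
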