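import Pool.Agent.V1171.LC.Defs

/-!
General facts: `lempert = artanh ∘ kob`, correction of discs, upper semicontinuity.
-/

set_option autoImplicit false

open Metric Set Filter Topology

namespace Pool.Agent.V1171.LC

variable {E : Type*} [NormedAddCommGroup E] [NormedSpace ℂ E]

theorem kob_bdd (D : Set E) (z w : E) :
    BddBelow {t : ℝ | ∃ (f : ℂ → E) (l : ℂ), IsDisc D f l z w ∧ t = ‖l‖} := by
  refine ⟨0, ?_⟩
  rintro t ⟨f, l, -, rfl⟩
  exact norm_nonneg l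

theorem kob_nonneg (D : Set E) (z w : E) : 0 ≤ kob D z w := by
  apply Real.sInf_nonneg
  rintro t ⟨f, l, -, rfl⟩
  exact norm_nonneg l

theorem kob_le {D : Set E} {f : ℂ → E} {l : ℂ} {z w : E} (h : IsDisc D f l z w) :
    kob D z w ≤ ‖l‖ :=
  csInf_le (kob_bdd D z w) ⟨f, l, h, rfl⟩

theorem kob_lt_one {D : Set E} {z w : E} (h : ∃ f l, IsDisc D f l z w) : kob D z w < 1 := by
  obtain ⟨f, l, h⟩ := h
  exact (kob_le h).trans_lt (mem_ball_zero_iff.mp h.2.2.1)

theorem continuousAt_artanh {x : ℝ} (h0 : -1 < x) (h1 : x < 1) : ContinuousAt Real.artanh x := by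
  have hp : 0 < (1 + x) / (1 - x) := div_pos (by linarith) (by linarith)
  unfold Real.artanh
  apply ContinuousAt.log
  · apply ContinuousAt.sqrt
    have hne : (1 : ℝ) - x ≠ 0 := by
      have : 0 < 1 - x := by linarith
      exact this.ne'
    exact (continuousAt_const.add continuousAt_id).div (continuousAt_const.sub continuousAt_id)
      hne
  · exact (Real.sqrt_pos.mpr hp).ne'

theorem lempert_eq {D : Set E} {z w : E} (h : ∃ f l, IsDisc D f l z w) :
    lempert D z w = Real.artanh (kob D z w) := by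
  set S : Set ℝ := {t : ℝ | ∃ (f : ℂ → E) (l : ℂ), IsDisc D f l z w ∧ t = ‖l‖} with hS
  have hSne : S.Nonempty := by
    obtain ⟨f, l, h⟩ := h
    exact ⟨‖l‖, f, l, h, rfl⟩
  have hsub : S ⊆ Ioo (-1) 1 := by
    rintro t ⟨f, l, h, rfl⟩
    exact ⟨by linarith [norm_nonneg l], mem_ball_zero_iff.mp h.2.2.1⟩
  have h1 : kob D z w < 1 := kob_lt_one h
  have h0 := kob_nonneg D z w
  have himg : {t : ℝ | ∃ (f : ℂ → E) (l : ℂ), IsDisc D f l z w ∧ t = Real.artanh ‖l‖} =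
      Real.artanh '' S := by
    ext t
    constructor
    · rintro ⟨f, l, h, rfl⟩
      exact ⟨‖l‖, ⟨f, l, h, rfl⟩, rfl⟩
    · rintro ⟨_, ⟨f, l, h, rfl⟩, rfl⟩
      exact ⟨f, l, h, rfl⟩
  rw [lempert, himg]
  symm
  exact MonotoneOn.map_csInf_of_continuousWithinAt (A := S)
    (continuousAt_artanh (by change -1 < kob D z w; linarith) h1).continuousWithinAt
    ((Real.strictMonoOn_artanh.monotoneOn).mono hsub) hSne (kob_bdd D z w)

/-- Correction of a disc with a margin. -/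
theorem disc_adjust {D : Set E} {F : ℂ → E} {l : ℂ} {κ : ℝ} (hl0 : l ≠ 0) (hl : ‖l‖ < 1)
    (hF : DifferentiableOn ℂ F (ball 0 1))
    (hm : ∀ ζ ∈ ball (0 : ℂ) 1, closedBall (F ζ) κ ⊆ D) {z w : E}
    (h : ‖z - F 0‖ + (‖z - F 0‖ + ‖w - F l‖) / ‖l‖ ≤ κ) : ∃ f, IsDisc D f l z w := by
  refine ⟨fun ζ => F ζ + (z - F 0) + (ζ / l) • ((w - F l) - (z - F 0)), ?_, ?_, ?_, ?_, ?_⟩
  · apply DifferentiableOn.add
    · exact hF.add_const _
    · fun_prop
  · intro ζ hζ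
    apply hm ζ hζ
    rw [mem_closedBall, dist_eq_norm]
    have e : F ζ + (z - F 0) + (ζ / l) • ((w - F l) - (z - F 0)) - F ζ =
        (z - F 0) + (ζ / l) • ((w - F l) - (z - F 0)) := by abel
    rw [e]
    have hln : 0 < ‖l‖ := norm_pos_iff.mpr hl0
    have hζ1 : ‖ζ‖ ≤ 1 := (mem_ball_zero_iff.mp hζ).le
    calc ‖(z - F 0) + (ζ / l) • ((w - F l) - (z - F 0))‖
        ≤ ‖z - F 0‖ + ‖(ζ / l) • ((w - F l) - (z - F 0))‖ := norm_add_le _ _
      _ ≤ ‖z - F 0‖ + (1 / ‖l‖) * (‖w - F l‖ + ‖z - F 0‖) := by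
          rw [norm_smul, norm_div]
          gcongr
          exact norm_sub_le _ _
      _ = ‖z - F 0‖ + (‖z - F 0‖ + ‖w - F l‖) / ‖l‖ := by ring
      _ ≤ κ := h
  · exact mem_ball_zero_iff.mpr hl
  · simp
  · simp only [div_self hl0, one_smul]
    abel

theorem usc {D : Set E} (hD : IsOpen D) {z w : E} (hz : z ∈ D)
    (hne : ∃ f l, IsDisc D f l z w) {r : ℝ}
    (hr : kob D z w < r) : ∀ᶠ p : E × E in 𝓝 (z, w), kob D p.1 p.2 < r := by
  wlog hr1 : r ≤ 1 generalizing r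
  · filter_upwards [this (r := 1) (kob_lt_one hne) le_rfl] with p hp
    push Not at hr1
    linarith
  -- the key: a disc with margin
  have key : ∃ (F : ℂ → E) (l : ℂ) (κ : ℝ), l ≠ 0 ∧ ‖l‖ < r ∧ 0 < κ ∧
      DifferentiableOn ℂ F (ball 0 1) ∧ (∀ ζ ∈ ball (0 : ℂ) 1, closedBall (F ζ) κ ⊆ D) ∧
      F 0 = z ∧ F l = w := by
    have hSne : {t : ℝ | ∃ (f : ℂ → E) (l : ℂ), IsDisc D f l z w ∧ t = ‖l‖}.Nonempty := by
      obtain ⟨f, l, h⟩ := hne
      exact ⟨‖l‖, f, l, h, rfl⟩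
    obtain ⟨_, ⟨f, l, hfl, rfl⟩, hlr⟩ := exists_lt_of_csInf_lt hSne hr
    obtain ⟨hf, hfm, hl1, hf0, hfw⟩ := hfl
    have hr0 : 0 < r := lt_of_le_of_lt (norm_nonneg l) hlr
    by_cases hl0 : l = 0
    · subst hl0
      obtain ⟨κ, hκ, hκD⟩ := Metric.isOpen_iff.mp hD z hz
      refine ⟨fun _ => z, (r / 2 : ℝ), κ / 2, ?_, ?_, by positivity, by fun_prop, ?_, rfl, ?_⟩
      · simp [hr0.ne']
      · rw [Complex.norm_real, Real.norm_of_nonneg (by positivity)]
        linarith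
      · intro ζ _
        exact (closedBall_subset_ball (by linarith)).trans hκD
      · rw [← hf0, hfw]
    · have hln : 0 < ‖l‖ := norm_pos_iff.mpr hl0
      have hq : ‖l‖ / r < 1 := (div_lt_one hr0).mpr hlr
      obtain ⟨s, hs1, hs2⟩ := exists_between hq
      have hs0 : 0 < s := lt_trans (div_pos hln hr0) hs1
      have hball : ∀ ζ ∈ ball (0 : ℂ) 1, (s : ℂ) * ζ ∈ closedBall (0 : ℂ) s := by
        intro ζ hζ
        rw [mem_closedBall_zero_iff, norm_mul, Complex.norm_real, Real.norm_of_nonneg hs0.le]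
        have := (mem_ball_zero_iff.mp hζ).le
        nlinarith
      have hcb : closedBall (0 : ℂ) s ⊆ ball 0 1 := closedBall_subset_ball hs2
      have hK : IsCompact (f '' closedBall (0 : ℂ) s) :=
        (isCompact_closedBall _ _).image_of_continuousOn (hf.continuousOn.mono hcb)
      have hKD : f '' closedBall (0 : ℂ) s ⊆ D := by
        rintro _ ⟨ζ, hζ, rfl⟩
        exact hfm (hcb hζ)
      obtain ⟨κ, hκ, hκD⟩ := hK.exists_cthickening_subset_open hD hKD
      have hsC : (s : ℂ) ≠ 0 := by exact_mod_cast hs0.ne'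
      refine ⟨fun ζ => f (s * ζ), l / s, κ, div_ne_zero hl0 hsC, ?_, hκ, ?_, ?_, ?_, ?_⟩
      · rw [norm_div, Complex.norm_real, Real.norm_of_nonneg hs0.le, div_lt_iff₀ hs0]
        rw [div_lt_iff₀ hr0] at hs1
        linarith
      · exact hf.comp (by fun_prop) (fun ζ hζ => hcb (hball ζ hζ))
      · intro ζ hζ
        exact (closedBall_subset_cthickening (mem_image_of_mem f (hball ζ hζ)) κ).trans hκD
      · simpa using hf0
      · simp only
        rw [mul_div_cancel₀ _ hsC]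
        exact hfw
  obtain ⟨F, l, κ, hl0, hlr, hκ, hF, hm, hF0, hFl⟩ := key
  have hc : Continuous fun p : E × E =>
      ‖p.1 - F 0‖ + (‖p.1 - F 0‖ + ‖p.2 - F l‖) / ‖l‖ := by fun_prop
  have h1 : ∀ᶠ p : E × E in 𝓝 (z, w),
      ‖p.1 - F 0‖ + (‖p.1 - F 0‖ + ‖p.2 - F l‖) / ‖l‖ < κ := by
    apply hc.continuousAt.eventually_lt_const
    simpa [hF0, hFl] using hκ
  filter_upwards [h1] with p hp
  obtain ⟨f, hf⟩ := disc_adjust hl0 (hlr.trans_le hr1) hF hm hp.le
  exact (kob_le hf).trans_lt hlr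

end Pool.Agent.V1171.LC
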