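import Pool.Agent.V1171.LC.Fin

/-!
Geometry of the shell `{1/2 < ‖x‖ < 1}` in `ℂⁿ`, `n ≥ 2`.
-/

set_option autoImplicit false

open Metric Set Filter Topology

namespace Pool.Agent.V1171.LC

theorem rank_gt {n : ℕ} (hn : 2 ≤ n) : 1 < Module.rank ℝ (EuclideanSpace ℂ (Fin n)) := by
  have h : 1 < Module.finrank ℝ (EuclideanSpace ℂ (Fin n)) := by
    rw [finrank_real_of_complex, finrank_euclideanSpace_fin]
    omega
  have := Module.lt_rank_of_lt_finrank h
  simpa using this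

theorem isConnected_shell {n : ℕ} (hn : 2 ≤ n) :
    IsConnected (shell (EuclideanSpace ℂ (Fin n)) (1 / 2)) := by
  have h1 : IsConnected (sphere (0 : EuclideanSpace ℂ (Fin n)) 1) :=
    isConnected_sphere (rank_gt hn) 0 zero_le_one
  have h2 : IsConnected (Ioo (1 / 2 : ℝ) 1) := isConnected_Ioo (by norm_num)
  have h3 := (h2.prod h1).image (fun p : ℝ × EuclideanSpace ℂ (Fin n) => p.1 • p.2)
    (by fun_prop)
  convert h3 using 1
  ext x
  constructor
  · rintro ⟨hx1, hx2⟩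
    have hx0 : 0 < ‖x‖ := lt_trans (by norm_num) hx1
    refine ⟨(‖x‖, (‖x‖⁻¹) • x), ⟨⟨hx1, hx2⟩, ?_⟩, ?_⟩
    · rw [mem_sphere_zero_iff_norm, norm_smul, norm_inv, norm_norm, inv_mul_cancel₀ hx0.ne']
    · simp only
      rw [smul_smul, mul_inv_cancel₀ hx0.ne', one_smul]
  · rintro ⟨⟨t, y⟩, ⟨⟨ht1, ht2⟩, hy⟩, rfl⟩
    rw [mem_sphere_zero_iff_norm] at hy
    simp only at hy ht1 ht2
    have ht0 : 0 < t := lt_trans (by norm_num) ht1
    have hn : ‖t • y‖ = t := by
      rw [norm_smul, hy, mul_one, Real.norm_of_nonneg ht0.le]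
    exact ⟨by rw [hn]; exact ht1, by rw [hn]; exact ht2⟩

theorem isBounded_shell {E : Type*} [NormedAddCommGroup E] (a : ℝ) :
    Bornology.IsBounded (shell E a) := by
  apply (isBounded_ball (x := (0 : E)) (r := 1)).subset
  intro x hx
  exact mem_ball_zero_iff.mpr hx.2

theorem hasC1Boundary_shell {n : ℕ} :
    HasC1Boundary (shell (EuclideanSpace ℂ (Fin n)) (1 / 2)) := by
  set E := EuclideanSpace ℂ (Fin n)
  intro p hp
  have hcl : closure (shell E (1 / 2)) ⊆ {x | 1 / 2 ≤ ‖x‖ ∧ ‖x‖ ≤ 1} := by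
    apply closure_minimal
    · intro x hx
      exact ⟨hx.1.le, hx.2.le⟩
    · exact (isClosed_le continuous_const continuous_norm).inter
        (isClosed_le continuous_norm continuous_const)
  rw [(isOpen_shell (E := E) (1 / 2)).frontier_eq] at hp
  obtain ⟨hp1, hp2⟩ := hp
  obtain ⟨hp3, hp4⟩ := hcl hp1
  have hfd : ∀ x : E, x ≠ 0 → fderiv ℝ (fun x : E => ‖x‖ ^ 2) x ≠ 0 := by
    intro x hx h
    rw [fderiv_norm_sq_apply] at h
    have h1 := congrArg (fun L => L x) h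
    simp at h1
    exact hx (norm_eq_zero.mp h1)
  have hcd : ContDiff ℝ 1 (fun x : E => ‖x‖ ^ 2) := contDiff_norm_sq ℝ
  have hdiff : Differentiable ℝ (fun x : E => ‖x‖ ^ 2) := hcd.differentiable (by norm_num)
  by_cases hcase : ‖p‖ < 1
  · -- the inner sphere
    have hpn : ‖p‖ = 1 / 2 := by
      by_contra hne
      exact hp2 ⟨lt_of_le_of_ne hp3 (Ne.symm hne), hcase⟩
    refine ⟨{x | 0 < ‖x‖ ∧ ‖x‖ < 1}, fun x => 1 / 4 - ‖x‖ ^ 2, ?_, ⟨by rw [hpn]; norm_num, hcase⟩,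
      ?_, ?_, ?_⟩
    · exact (isOpen_lt continuous_const continuous_norm).inter
        (isOpen_lt continuous_norm continuous_const)
    · exact (contDiff_const.sub hcd).contDiffOn
    · intro x hx h
      rw [fderiv_const_sub] at h
      exact hfd x (norm_pos_iff.mp hx.1) (neg_eq_zero.mp h)
    · ext x
      constructor
      · rintro ⟨⟨h1, -⟩, h2⟩
        refine ⟨h2, ?_⟩
        simp only
        nlinarith
      · rintro ⟨⟨h1, h2⟩, h3⟩
        refine ⟨⟨?_, h2⟩, ⟨h1, h2⟩⟩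
        simp only at h3
        nlinarith
  · -- the outer sphere
    have hpn : ‖p‖ = 1 := le_antisymm hp4 (not_lt.mp hcase)
    refine ⟨{x | 1 / 2 < ‖x‖}, fun x => ‖x‖ ^ 2 - 1, ?_, by
      change 1 / 2 < ‖p‖; rw [hpn]; norm_num, ?_, ?_, ?_⟩
    · exact isOpen_lt continuous_const continuous_norm
    · exact (hcd.sub contDiff_const).contDiffOn
    · intro x hx h
      rw [fderiv_sub_const] at h
      have hx' : 1 / 2 < ‖x‖ := hx
      exact hfd x (norm_pos_iff.mp (by linarith)) h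
    · ext x
      constructor
      · rintro ⟨⟨h1, h2⟩, -⟩
        refine ⟨h1, ?_⟩
        simp only
        nlinarith [norm_nonneg x]
      · rintro ⟨h1, h2⟩
        have h1' : 1 / 2 < ‖x‖ := h1
        refine ⟨⟨h1', ?_⟩, h1'⟩
        simp only at h2
        nlinarith [norm_nonneg x]

theorem not_pseudoconvex_aux {E : Type*} [NormedAddCommGroup E] [InnerProductSpace ℂ E]
    {e₀ e₁ : E} (he₀ : ‖e₀‖ = 1) (he₁ : ‖e₁‖ = 1) (he : inner ℂ e₀ e₁ = 0) :
    ¬ IsPseudoconvex (shell E (1 / 2)) := by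
  rintro ⟨-, h⟩
  have hnorm : ∀ ζ : ℂ, ‖((5 / 8 : ℂ) • e₀ + ζ • ((1 / 4 : ℂ) • e₁) : E)‖ ^ 2 =
      25 / 64 + ‖ζ‖ ^ 2 / 16 := by
    intro ζ
    rw [norm_add_sq (𝕜 := ℂ), norm_smul, norm_smul, norm_smul, inner_smul_left, inner_smul_right,
      inner_smul_right, he₀, he₁, he]
    simp
    ring
  set D := shell E (1 / 2) with hD
  have hmem : ∀ ζ : ℂ, ‖ζ‖ ≤ 1 → (5 / 8 : ℂ) • e₀ + ζ • ((1 / 4 : ℂ) • e₁) ∈ D := by
    intro ζ hζ
    have h1 := hnorm ζ
    set N := ‖((5 / 8 : ℂ) • e₀ + ζ • ((1 / 4 : ℂ) • e₁) : E)‖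
    have hN : 0 ≤ N := norm_nonneg _
    constructor
    · change 1 / 2 < N
      nlinarith [sq_nonneg ‖ζ‖]
    · change N < 1
      nlinarith [norm_nonneg ζ]
  have h1 := h _ _ hmem
  -- distance to the complement
  have hdist : ∀ x ∈ D, ∀ d : ℝ, d ≤ ‖x‖ - 1 / 2 → d ≤ 1 - ‖x‖ → d ≤ infDist x Dᶜ := by
    intro x hx d hd1 hd2
    have hne : (Dᶜ : Set E).Nonempty := ⟨0, by
      intro h0
      have := h0.1
      rw [norm_zero] at this
      norm_num at this⟩
    apply (le_infDist hne).mpr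
    intro y hy
    have hy' : ‖y‖ ≤ 1 / 2 ∨ 1 ≤ ‖y‖ := by
      by_contra hcon
      push Not at hcon
      exact hy hcon
    rw [dist_eq_norm]
    rcases hy' with hy' | hy'
    · have := norm_sub_norm_le x y
      linarith
    · have := norm_sub_norm_le y x
      rw [norm_sub_rev] at this
      linarith
  have hcen : infDist ((5 / 8 : ℂ) • e₀) Dᶜ ≤ 1 / 8 := by
    have hy : ((1 / 2 : ℂ) • e₀) ∈ (Dᶜ : Set E) := by
      intro h0
      have h2 := h0.1
      rw [norm_smul] at h2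
      rw [he₀] at h2
      norm_num at h2
    refine (infDist_le_dist_of_mem hy).trans ?_
    rw [dist_eq_norm, ← sub_smul, norm_smul]
    rw [he₀]
    norm_num
  have hcpos : 0 < infDist ((5 / 8 : ℂ) • e₀) Dᶜ := by
    have h0 := hmem 0 (by simp)
    rw [zero_smul, add_zero] at h0
    have hn0 := hnorm 0
    rw [zero_smul, add_zero, norm_zero] at hn0
    have hN : 0 ≤ ‖((5 / 8 : ℂ) • e₀ : E)‖ := norm_nonneg _
    have h5 : ‖((5 / 8 : ℂ) • e₀ : E)‖ = 5 / 8 := by nlinarith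
    have := hdist _ h0 (1 / 8) (by rw [h5]; norm_num) (by rw [h5]; norm_num)
    linarith
  have hlow : Real.log 8 ≤ -Real.log (infDist ((5 / 8 : ℂ) • e₀) Dᶜ) := by
    rw [← Real.log_inv]
    apply Real.log_le_log (by norm_num)
    rw [le_inv_comm₀ (by norm_num) hcpos]
    linarith
  have hcirc : ∀ ζ : ℂ, ‖ζ‖ = 1 →
      1 / 6 ≤ infDist ((5 / 8 : ℂ) • e₀ + ζ • ((1 / 4 : ℂ) • e₁)) Dᶜ := by
    intro ζ hζ
    have h2 := hnorm ζ
    rw [hζ] at h2
    have h3 := hmem ζ hζ.le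
    set N := ‖((5 / 8 : ℂ) • e₀ + ζ • ((1 / 4 : ℂ) • e₁) : E)‖
    have hN : 0 ≤ N := norm_nonneg _
    apply hdist _ h3
    · change 1 / 6 ≤ N - 1 / 2
      nlinarith
    · change 1 / 6 ≤ 1 - N
      nlinarith
  have havg : Real.circleAverage (fun ζ : ℂ => -Real.log
      (infDist ((5 / 8 : ℂ) • e₀ + ζ • ((1 / 4 : ℂ) • e₁)) Dᶜ)) 0 1 ≤ Real.log 6 := by
    apply Real.circleAverage_mono_on_of_le_circle
    · apply ContinuousOn.circleIntegrable (zero_le_one)
      apply ContinuousOn.neg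
      apply ContinuousOn.log
      · apply Continuous.continuousOn
        exact (continuous_infDist_pt _).comp (by fun_prop)
      · intro ζ hζ
        have := hcirc ζ (mem_sphere_zero_iff_norm.mp hζ)
        linarith
    · intro ζ hζ
      rw [abs_one] at hζ
      have h2 := hcirc ζ (mem_sphere_zero_iff_norm.mp hζ)
      rw [← Real.log_inv]
      apply Real.log_le_log
      · positivity
      · rw [inv_le_comm₀ (by linarith) (by norm_num)]
        linarith
  have h86 : Real.log 6 < Real.log 8 := Real.log_lt_log (by norm_num) (by norm_num)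
  have h1' : -Real.log (infDist ((5 / 8 : ℂ) • e₀) Dᶜ) ≤ Real.circleAverage (fun ζ : ℂ => -Real.log
      (infDist ((5 / 8 : ℂ) • e₀ + ζ • ((1 / 4 : ℂ) • e₁)) Dᶜ)) 0 1 := h1
  linarith

theorem not_pseudoconvex_shell {n : ℕ} (hn : 2 ≤ n) :
    ¬ IsPseudoconvex (shell (EuclideanSpace ℂ (Fin n)) (1 / 2)) := by
  apply not_pseudoconvex_aux (e₀ := EuclideanSpace.single ⟨0, by omega⟩ 1)
    (e₁ := EuclideanSpace.single ⟨1, by omega⟩ 1)
  · simp
  · simp
  · rw [EuclideanSpace.inner_single_left]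
    simp

end Pool.Agent.V1171.LC
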