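import Pool.Agent.V1171.LC.Gen

/-!
Lower semicontinuity for the shell.
-/

set_option autoImplicit false

open Metric Set Filter Topology

namespace Pool.Agent.V1171.LC

theorem mob_id (a b : ℂ) : ‖1 - (starRingEnd ℂ) b * a‖ ^ 2 - ‖a - b‖ ^ 2 =
    (1 - ‖a‖ ^ 2) * (1 - ‖b‖ ^ 2) := by
  simp only [← Complex.normSq_eq_norm_sq, Complex.normSq_apply, Complex.sub_re, Complex.sub_im,
    Complex.mul_re, Complex.mul_im, Complex.one_re, Complex.one_im, Complex.conj_re,
    Complex.conj_im]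
  ring

theorem mob_ne (a b : ℂ) (ha : ‖a‖ < 1) (hb : ‖b‖ < 1) : 1 - (starRingEnd ℂ) b * a ≠ 0 := by
  intro h
  have h1 : (starRingEnd ℂ) b * a = 1 := (sub_eq_zero.mp h).symm
  have h2 := congrArg norm h1
  rw [norm_mul, RCLike.norm_conj, norm_one] at h2
  nlinarith [norm_nonneg a, norm_nonneg b]

theorem mob_lt (a b : ℂ) (ha : ‖a‖ < 1) (hb : ‖b‖ < 1) :
    ‖(a - b) / (1 - (starRingEnd ℂ) b * a)‖ < 1 := by
  rw [norm_div, div_lt_one (norm_pos_iff.mpr (mob_ne a b ha hb))]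
  have h := mob_id a b
  have h2 : 0 < (1 - ‖a‖ ^ 2) * (1 - ‖b‖ ^ 2) := by
    apply mul_pos <;> nlinarith [norm_nonneg a, norm_nonneg b]
  exact lt_of_pow_lt_pow_left₀ 2 (norm_nonneg _) (by linarith)

/-- Scalar Schwarz–Pick bound. -/
theorem scalar_bound {g : ℂ → ℂ} (hd : DifferentiableOn ℂ g (ball 0 1))
    (hm : ∀ z ∈ ball (0 : ℂ) 1, ‖g z‖ < 1) {ρ : ℝ} (hρ : ρ < 1) (h0 : ‖g 0‖ ≤ ρ) {z : ℂ}
    (hz : z ∈ ball (0 : ℂ) 1) : ‖g z‖ ^ 2 ≤ 1 - (1 - ‖z‖ ^ 2) * (1 - ρ) ^ 2 := by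
  have hg0 : ‖g 0‖ < 1 := h0.trans_lt hρ
  have hgz : ‖g z‖ < 1 := hm z hz
  have hz1 : ‖z‖ < 1 := mem_ball_zero_iff.mp hz
  set F : ℂ → ℂ := fun u => (g u - g 0) / (1 - (starRingEnd ℂ) (g 0) * g u) with hF
  have hFd : DifferentiableOn ℂ F (ball 0 1) := by
    apply DifferentiableOn.div
    · exact hd.sub_const _
    · exact (differentiableOn_const _).sub (hd.const_mul _)
    · intro u hu
      exact mob_ne _ _ (hm _ hu) hg0
  have hF0 : F 0 = 0 := by simp [hF]
  have hFm : MapsTo F (ball 0 1) (closedBall 0 1) := by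
    intro u hu
    rw [mem_closedBall_zero_iff]
    exact (mob_lt _ _ (hm _ hu) hg0).le
  have hS := Complex.norm_le_norm_of_mapsTo_ball hFd hFm hF0 hz1
  rw [hF] at hS
  simp only at hS
  have hnp : 0 < ‖1 - (starRingEnd ℂ) (g 0) * g z‖ := norm_pos_iff.mpr (mob_ne _ _ hgz hg0)
  rw [norm_div, div_le_iff₀ hnp] at hS
  have hS2 := pow_le_pow_left₀ (norm_nonneg _) hS 2
  rw [mul_pow] at hS2
  have h1 := mob_id (g z) (g 0)
  have h2 : 1 - ρ ≤ ‖1 - (starRingEnd ℂ) (g 0) * g z‖ := by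
    have h3 : ‖(starRingEnd ℂ) (g 0) * g z‖ ≤ ρ := by
      rw [norm_mul, RCLike.norm_conj]
      nlinarith [norm_nonneg (g 0), norm_nonneg (g z)]
    have h4 := norm_sub_norm_le (1 : ℂ) ((starRingEnd ℂ) (g 0) * g z)
    rw [norm_one] at h4
    linarith
  have h3 : (1 - ρ) ^ 2 ≤ ‖1 - (starRingEnd ℂ) (g 0) * g z‖ ^ 2 :=
    pow_le_pow_left₀ (by linarith) h2 2
  have h4 : 0 ≤ 1 - ‖z‖ ^ 2 := by nlinarith [norm_nonneg z]
  have h5 : (1 - ‖z‖ ^ 2) * (1 - ρ) ^ 2 ≤
      (1 - ‖z‖ ^ 2) * ‖1 - (starRingEnd ℂ) (g 0) * g z‖ ^ 2 := mul_le_mul_of_nonneg_left h3 h4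
  have h6 : (1 - ‖g z‖ ^ 2) * (1 - ‖g 0‖ ^ 2) ≤ 1 - ‖g z‖ ^ 2 := by
    have : 0 ≤ 1 - ‖g z‖ ^ 2 := by nlinarith [norm_nonneg (g z)]
    nlinarith [sq_nonneg ‖g 0‖]
  nlinarith

variable {E : Type*} [NormedAddCommGroup E] [InnerProductSpace ℂ E]

theorem vector_bound {f : ℂ → E} (hd : DifferentiableOn ℂ f (ball 0 1))
    (hm : ∀ z ∈ ball (0 : ℂ) 1, ‖f z‖ < 1) {ρ : ℝ} (hρ : ρ < 1) (h0 : ‖f 0‖ ≤ ρ) {z : ℂ}
    (hz : z ∈ ball (0 : ℂ) 1) : ‖f z‖ ^ 2 ≤ 1 - (1 - ‖z‖ ^ 2) * (1 - ρ) ^ 2 := by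
  by_cases hx : f z = 0
  · rw [hx, norm_zero]
    have h1 : ‖z‖ < 1 := mem_ball_zero_iff.mp hz
    have h2 : (0 : ℝ) ≤ ρ := (norm_nonneg _).trans h0
    have h3 : (1 - ρ) ^ 2 ≤ 1 := by nlinarith
    have h4 : 0 ≤ 1 - ‖z‖ ^ 2 := by nlinarith [norm_nonneg z]
    nlinarith [sq_nonneg ‖z‖, sq_nonneg (1 - ρ)]
  · have hn : 0 < ‖f z‖ := norm_pos_iff.mpr hx
    set e : E := ((‖f z‖ : ℂ)⁻¹) • f z with he
    have he1 : ‖e‖ = 1 := by
      rw [he, norm_smul, norm_inv, Complex.norm_real, norm_norm, inv_mul_cancel₀ hn.ne']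
    have hle : ∀ u, ‖inner ℂ e (f u)‖ ≤ ‖f u‖ := by
      intro u
      have := norm_inner_le_norm (𝕜 := ℂ) e (f u)
      rwa [he1, one_mul] at this
    have h1 := scalar_bound (g := fun u => inner ℂ e (f u)) (z := z) (ρ := ρ) ?_ ?_ hρ ?_ hz
    · have h2 : inner ℂ e (f z) = (‖f z‖ : ℂ) := by
        rw [he, inner_smul_left, inner_self_eq_norm_sq_to_K]
        simp only [map_inv₀, Complex.conj_ofReal, Complex.coe_algebraMap]
        field_simp
      rw [h2, Complex.norm_real, norm_norm] at h1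
      exact h1
    · exact (innerSL ℂ e).differentiable.comp_differentiableOn hd
    · intro u hu
      exact (hle u).trans_lt (hm u hu)
    · exact (hle 0).trans h0

/-- A polynomial map that fixes `z` and `w` and pushes the closed shell into the open one. -/
theorem exists_psi {a : ℝ} (ha : 0 < a) {z w : E} (hz : z ∈ shell E a) (hw : w ∈ shell E a)
    {R : ℝ} (hR : R < 1) :
    ∃ (Ψ : E → E) (κ : ℝ), Differentiable ℂ Ψ ∧ 0 < κ ∧ Ψ z = z ∧ Ψ w = w ∧
      ∀ x, a ≤ ‖x‖ → ‖x‖ ≤ R → closedBall (Ψ x) κ ⊆ shell E a := by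
  obtain ⟨hz1, hz2⟩ := hz
  obtain ⟨hw1, hw2⟩ := hw
  obtain ⟨c, hc1, hc2⟩ := exists_between (lt_min hz1 hw1)
  have hcz : c < ‖z‖ := hc2.trans_le (min_le_left _ _)
  have hcw : c < ‖w‖ := hc2.trans_le (min_le_right _ _)
  have hc0 : 0 < c := ha.trans hc1
  have hzp : 0 < ‖z‖ := hc0.trans hcz
  have hwp : 0 < ‖w‖ := hc0.trans hcw
  set u : E → E → ℂ := fun y x => inner ℂ y x / (‖y‖ : ℂ) ^ 2 with hu
  have hud : ∀ y, Differentiable ℂ (u y) := by
    intro y
    have h1 : Differentiable ℂ (fun x => inner ℂ y x) := (innerSL ℂ y).differentiable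
    simp only [hu, div_eq_mul_inv]
    exact h1.mul_const _
  have hun : ∀ y x, 0 < ‖y‖ → ‖u y x‖ ≤ ‖x‖ / ‖y‖ := by
    intro y x hy
    rw [hu]
    simp only
    rw [norm_div, norm_pow, Complex.norm_real, norm_norm, div_le_div_iff₀ (by positivity) hy]
    have := norm_inner_le_norm (𝕜 := ℂ) y x
    nlinarith
  have huself : ∀ y : E, 0 < ‖y‖ → u y y = 1 := by
    intro y hy
    rw [hu]
    simp only
    rw [inner_self_eq_norm_sq_to_K]
    have : (‖y‖ : ℂ) ≠ 0 := by exact_mod_cast hy.ne'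
    field_simp
    simp
  have hlz : c / ‖z‖ < 1 := (div_lt_one hzp).mpr hcz
  have hlw : c / ‖w‖ < 1 := (div_lt_one hwp).mpr hcw
  obtain ⟨N₁, hN₁⟩ := exists_pow_lt_of_lt_one (show (0 : ℝ) < 1 / 8 by norm_num) hlz
  obtain ⟨N₂, hN₂⟩ := exists_pow_lt_of_lt_one (show (0 : ℝ) < 1 / 8 by norm_num) hlw
  set P : E → ℂ := fun x => (1 - u z x ^ N₁) * (1 - u w x ^ N₂) with hP
  have hPd : Differentiable ℂ P := by
    apply Differentiable.mul
    · exact (differentiable_const _).sub ((hud z).pow _)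
    · exact (differentiable_const _).sub ((hud w).pow _)
  have hPin : ∀ x, ‖x‖ ≤ c → 1 / 2 ≤ (P x).re := by
    intro x hx
    have h1 : ‖u z x ^ N₁‖ ≤ 1 / 8 := by
      rw [norm_pow]
      calc ‖u z x‖ ^ N₁ ≤ (c / ‖z‖) ^ N₁ := by
            gcongr
            exact (hun z x hzp).trans (by gcongr)
        _ ≤ 1 / 8 := hN₁.le
    have h2 : ‖u w x ^ N₂‖ ≤ 1 / 8 := by
      rw [norm_pow]
      calc ‖u w x‖ ^ N₂ ≤ (c / ‖w‖) ^ N₂ := by
            gcongr
            exact (hun w x hwp).trans (by gcongr)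
        _ ≤ 1 / 8 := hN₂.le
    set A := u z x ^ N₁
    set B := u w x ^ N₂
    have h3 : P x = 1 - (A + B - A * B) := by rw [hP]; simp only; ring
    have h4 : ‖A + B - A * B‖ ≤ 1 / 2 := by
      calc ‖A + B - A * B‖ ≤ ‖A + B‖ + ‖A * B‖ := norm_sub_le _ _
        _ ≤ ‖A‖ + ‖B‖ + ‖A‖ * ‖B‖ := by
            rw [norm_mul]
            gcongr
            exact norm_add_le _ _
        _ ≤ 1 / 2 := by nlinarith [norm_nonneg A, norm_nonneg B]
    have h5 := Complex.re_le_norm (A + B - A * B)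
    rw [h3, Complex.sub_re, Complex.one_re]
    linarith
  obtain ⟨B, hB0, hB⟩ : ∃ B : ℝ, 0 < B ∧ ∀ x : E, ‖x‖ ≤ 1 → ‖P x‖ ≤ B := by
    refine ⟨(1 + (1 / ‖z‖) ^ N₁) * (1 + (1 / ‖w‖) ^ N₂), by positivity, ?_⟩
    intro x hx
    rw [hP]
    simp only
    rw [norm_mul]
    have h1 : ‖1 - u z x ^ N₁‖ ≤ 1 + (1 / ‖z‖) ^ N₁ := by
      refine (norm_sub_le _ _).trans ?_
      rw [norm_one, norm_pow]
      gcongr
      exact (hun z x hzp).trans (by gcongr)
    have h2 : ‖1 - u w x ^ N₂‖ ≤ 1 + (1 / ‖w‖) ^ N₂ := by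
      refine (norm_sub_le _ _).trans ?_
      rw [norm_one, norm_pow]
      gcongr
      exact (hun w x hwp).trans (by gcongr)
    gcongr
  set ε : ℝ := min ((c - a) / 2) ((1 - R) / 2) / B with hε
  have hmin : 0 < min ((c - a) / 2) ((1 - R) / 2) := lt_min (by linarith) (by linarith)
  have hε0 : 0 < ε := div_pos hmin hB0
  have hεB : ε * B = min ((c - a) / 2) ((1 - R) / 2) := div_mul_cancel₀ _ hB0.ne'
  have hεB1 : ε * B ≤ (c - a) / 2 := hεB.le.trans (min_le_left _ _)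
  have hεB2 : ε * B ≤ (1 - R) / 2 := hεB.le.trans (min_le_right _ _)
  refine ⟨fun x => (1 + ε * P x) • x, min (min (ε * a / 4) ((c - a) / 4)) ((1 - R) / 4), ?_,
    ?_, ?_, ?_, ?_⟩
  · exact ((differentiable_const _).add (hPd.const_mul _)).smul differentiable_id
  · exact lt_min (lt_min (by positivity) (by linarith)) (by linarith)
  · have : P z = 0 := by
      rw [hP]
      simp only
      rw [huself z hzp]
      simp
    simp [this]
  · have : P w = 0 := by
      rw [hP]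
      simp only
      rw [huself w hwp]
      simp
    simp [this]
  · intro x hx1 hx2 y hy
    rw [mem_closedBall, dist_eq_norm] at hy
    set κ := min (min (ε * a / 4) ((c - a) / 4)) ((1 - R) / 4) with hκ
    have hκ1 : κ ≤ ε * a / 4 := (min_le_left _ _).trans (min_le_left _ _)
    have hκ2 : κ ≤ (c - a) / 4 := (min_le_left _ _).trans (min_le_right _ _)
    have hκ3 : κ ≤ (1 - R) / 4 := min_le_right _ _
    have hx0 : 0 < ‖x‖ := ha.trans_le hx1
    have hxle : ‖x‖ ≤ 1 := hx2.trans hR.le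
    have hPB := hB x hxle
    have hnΨ : ‖((1 + ε * P x) • x : E)‖ = ‖(1 + ε * P x : ℂ)‖ * ‖x‖ := norm_smul _ _
    have hεP : ‖(ε * P x : ℂ)‖ ≤ ε * B := by
      rw [norm_mul, Complex.norm_real, Real.norm_of_nonneg hε0.le]
      gcongr
    have hup : ‖((1 + ε * P x) • x : E)‖ ≤ R + (1 - R) / 2 := by
      rw [hnΨ]
      have h1 : ‖(1 + ε * P x : ℂ)‖ ≤ 1 + ε * B := by
        refine (norm_add_le _ _).trans ?_
        rw [norm_one]
        linarith
      have hεB0 : 0 ≤ ε * B := by positivity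
      nlinarith [norm_nonneg (1 + ε * P x : ℂ)]
    have hlow : a + min (ε * a / 2) ((c - a) / 2) ≤ ‖((1 + ε * P x) • x : E)‖ := by
      rw [hnΨ]
      rcases le_or_gt ‖x‖ c with hxc | hxc
      · have h1 : 1 + ε / 2 ≤ ‖(1 + ε * P x : ℂ)‖ := by
          have h2 := Complex.re_le_norm (1 + ε * P x : ℂ)
          have h3 : (1 + ε * P x : ℂ).re = 1 + ε * (P x).re := by simp
          have h4 := hPin x hxc
          rw [h3] at h2
          nlinarith
        have h5 : min (ε * a / 2) ((c - a) / 2) ≤ ε * a / 2 := min_le_left _ _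
        nlinarith
      · have h1 : 1 - ε * B ≤ ‖(1 + ε * P x : ℂ)‖ := by
          have h2 := norm_sub_norm_le (1 : ℂ) (-(ε * P x : ℂ))
          rw [norm_one, norm_neg, sub_neg_eq_add] at h2
          linarith
        have h5 : min (ε * a / 2) ((c - a) / 2) ≤ (c - a) / 2 := min_le_right _ _
        have h6 : c * (1 - ε * B) ≤ ‖(1 + ε * P x : ℂ)‖ * ‖x‖ := by
          have hc1' : c ≤ 1 := hxc.le.trans hxle
          have h7 : 0 ≤ 1 - ε * B := by nlinarith
          calc c * (1 - ε * B) = (1 - ε * B) * c := mul_comm _ _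
            _ ≤ ‖(1 + ε * P x : ℂ)‖ * ‖x‖ := by
              apply mul_le_mul h1 hxc.le hc0.le (norm_nonneg _)
        have hc1' : c ≤ 1 := hxc.le.trans hxle
        have h8 : c * (ε * B) ≤ (c - a) / 2 := by
          have : 0 ≤ ε * B := by positivity
          nlinarith
        nlinarith
    have hyn1 : ‖y‖ ≤ ‖((1 + ε * P x) • x : E)‖ + κ := by
      have := norm_sub_norm_le y ((1 + ε * P x) • x : E)
      linarith
    have hyn2 : ‖((1 + ε * P x) • x : E)‖ - κ ≤ ‖y‖ := by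
      have := norm_sub_norm_le ((1 + ε * P x) • x : E) y
      rw [norm_sub_rev] at this
      linarith
    constructor
    · have hlt : κ < min (ε * a / 2) ((c - a) / 2) := by
        apply lt_min
        · have : 0 < ε * a := by positivity
          linarith
        · linarith
      linarith
    · linarith

omit [InnerProductSpace ℂ E] in
theorem isOpen_shell (a : ℝ) : IsOpen (shell E a) :=
  (isOpen_lt continuous_const continuous_norm).inter (isOpen_lt continuous_norm continuous_const)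

/-- Lower semicontinuity for the shell. -/
theorem lsc {a : ℝ} (ha : 0 < a) {z w : E} (hz : z ∈ shell E a) (hw : w ∈ shell E a)
    (hall : ∀ z ∈ shell E a, ∀ w ∈ shell E a, ∃ f l, IsDisc (shell E a) f l z w) {r : ℝ}
    (hr : r < kob (shell E a) z w) :
    ∀ᶠ p : E × E in 𝓝 (z, w), p.1 ∈ shell E a → p.2 ∈ shell E a →
      r ≤ kob (shell E a) p.1 p.2 := by
  set D := shell E a with hD
  rcases le_or_gt r 0 with hr0 | hr0
  · filter_upwards with p _ _
    exact hr0.trans (kob_nonneg _ _ _)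
  have hk1 : kob D z w < 1 := kob_lt_one (hall z hz w hw)
  have hk0 : 0 < kob D z w := hr0.trans hr
  have hzw : z ≠ w := by
    rintro rfl
    have : IsDisc D (fun _ => z) 0 z z := ⟨by fun_prop, fun _ _ => hz, by simp, rfl, rfl⟩
    have h1 := kob_le this
    rw [norm_zero] at h1
    linarith
  obtain ⟨s, hs1, hs2⟩ := exists_between ((div_lt_one hk0).mpr hr)
  have hs0 : 0 < s := lt_trans (div_pos hr0 hk0) hs1
  have hrs : r / s < kob D z w := by
    rw [div_lt_iff₀ hs0]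
    rw [div_lt_iff₀ hk0] at hs1
    linarith
  obtain ⟨ρ, hρ1, hρ2⟩ := exists_between hz.2
  have hρ0 : 0 < ρ := (norm_nonneg z).trans_lt hρ1
  -- the uniform radius
  set R : ℝ := Real.sqrt (1 - (1 - s ^ 2) * (1 - ρ) ^ 2) with hR
  have hq0 : 0 < (1 - s ^ 2) * (1 - ρ) ^ 2 := by
    apply mul_pos
    · nlinarith
    · have : 0 < 1 - ρ := by linarith
      positivity
  have hR1 : R < 1 := by
    rw [hR, Real.sqrt_lt' one_pos]
    linarith
  obtain ⟨Ψ, κ, hΨ, hκ, hΨz, hΨw, hmar⟩ := exists_psi ha hz hw hR1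
  set d : ℝ := ‖z - w‖ with hd
  have hd0 : 0 < d := norm_pos_iff.mpr (sub_ne_zero.mpr hzw)
  have e1 : ∀ᶠ p : E × E in 𝓝 (z, w), ‖p.1‖ < ρ :=
    (continuous_fst.norm).continuousAt.eventually_lt_const hρ1
  have e2 : ∀ᶠ p : E × E in 𝓝 (z, w), d / 2 < ‖p.1 - p.2‖ := by
    have hc : Continuous fun p : E × E => ‖p.1 - p.2‖ := by fun_prop
    apply hc.continuousAt.eventually_const_lt
    change d / 2 < ‖z - w‖
    linarith
  have e3 : ∀ᶠ p : E × E in 𝓝 (z, w),
      ‖z - Ψ p.1‖ + (‖z - Ψ p.1‖ + ‖w - Ψ p.2‖) / (d / 4) < κ := by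
    have hΨc := hΨ.continuous
    have hc : Continuous fun p : E × E =>
        ‖z - Ψ p.1‖ + (‖z - Ψ p.1‖ + ‖w - Ψ p.2‖) / (d / 4) := by fun_prop
    apply hc.continuousAt.eventually_lt_const
    simp only [hΨz, hΨw, sub_self, norm_zero, add_zero, zero_div]
    exact hκ
  filter_upwards [e1, e2, e3] with p h1 h2 h3 hp1 hp2
  apply le_csInf
  · obtain ⟨f, l, h⟩ := hall p.1 hp1 p.2 hp2
    exact ⟨‖l‖, f, l, h, rfl⟩
  rintro _ ⟨f, l, ⟨hf, hfm, hl, hf0, hfl⟩, rfl⟩
  by_contra hlt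
  push Not at hlt
  have hl1 : ‖l‖ < 1 := mem_ball_zero_iff.mp hl
  -- lower bound for `‖l‖`
  have hmaps : MapsTo f (ball 0 1) (closedBall (f 0) 2) := by
    intro ζ hζ
    rw [mem_closedBall, dist_eq_norm]
    have t1 := (hfm hζ).2
    have t2 := (hfm (mem_ball_self (zero_lt_one))).2
    exact (norm_sub_le _ _).trans (by linarith)
  have hsch := Complex.dist_le_div_mul_dist_of_mapsTo_ball hf hmaps hl
  rw [hfl, hf0, dist_zero_right, dist_eq_norm, norm_sub_rev] at hsch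
  have hld : d / 4 ≤ ‖l‖ := by linarith
  have hl0 : l ≠ 0 := by
    rintro rfl
    rw [norm_zero] at hld
    linarith
  have hsC : (s : ℂ) ≠ 0 := by exact_mod_cast hs0.ne'
  have hls : ‖l / s‖ < kob D z w := by
    rw [norm_div, Complex.norm_real, Real.norm_of_nonneg hs0.le]
    exact (div_lt_div_of_pos_right hlt hs0).trans hrs
  have hball : ∀ ζ ∈ ball (0 : ℂ) 1, (s : ℂ) * ζ ∈ ball (0 : ℂ) 1 ∧ ‖(s : ℂ) * ζ‖ ≤ s := by
    intro ζ hζ
    have hζ1 := (mem_ball_zero_iff.mp hζ)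
    have : ‖(s : ℂ) * ζ‖ ≤ s := by
      rw [norm_mul, Complex.norm_real, Real.norm_of_nonneg hs0.le]
      nlinarith
    exact ⟨mem_ball_zero_iff.mpr (this.trans_lt hs2), this⟩
  have hadj : ∃ g, IsDisc D g (l / s) z w := by
    apply disc_adjust (D := D) (F := fun ζ => Ψ (f (s * ζ))) (l := l / s) (κ := κ)
      (div_ne_zero hl0 hsC) (hls.trans hk1)
    · apply hΨ.comp_differentiableOn
      exact hf.comp (by fun_prop) (fun ζ hζ => (hball ζ hζ).1)
    · intro ζ hζ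
      obtain ⟨b1, b2⟩ := hball ζ hζ
      apply hmar
      · exact (hfm b1).1.le
      · have hb := vector_bound hf (fun u hu => (hfm hu).2) hρ2 (by rw [hf0]; exact h1.le) b1
        rw [hR]
        apply Real.le_sqrt_of_sq_le
        refine hb.trans ?_
        have : ‖(s : ℂ) * ζ‖ ^ 2 ≤ s ^ 2 := pow_le_pow_left₀ (norm_nonneg _) b2 2
        nlinarith [sq_nonneg (1 - ρ)]
    · simp only [mul_zero]
      rw [mul_div_cancel₀ _ hsC, hf0, hfl]
      refine le_trans ?_ h3.le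
      have hlls : d / 4 ≤ ‖l / s‖ := by
        rw [norm_div, Complex.norm_real, Real.norm_of_nonneg hs0.le, le_div_iff₀ hs0]
        nlinarith
      have : 0 < d / 4 := by positivity
      gcongr
  obtain ⟨g, hg⟩ := hadj
  have := kob_le hg
  linarith

/-- Continuity of the Lempert function of the shell. -/
theorem continuousOn_lempert {a : ℝ} (ha : 0 < a)
    (hall : ∀ z ∈ shell E a, ∀ w ∈ shell E a, ∃ f l, IsDisc (shell E a) f l z w) :
    ContinuousOn (fun p : E × E => lempert (shell E a) p.1 p.2) (shell E a ×ˢ shell E a) := by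
  have hk : ContinuousOn (fun p : E × E => kob (shell E a) p.1 p.2)
      (shell E a ×ˢ shell E a) := by
    rintro ⟨z, w⟩ ⟨hz, hw⟩
    rw [ContinuousWithinAt, tendsto_order]
    constructor
    · intro r hr
      obtain ⟨r', hr1, hr2⟩ := exists_between hr
      have h1 := lsc ha hz hw hall hr2
      filter_upwards [h1.filter_mono nhdsWithin_le_nhds, self_mem_nhdsWithin] with p hp hpD
      exact hr1.trans_le (hp hpD.1 hpD.2)
    · intro r hr
      exact (usc (isOpen_shell a) hz (hall z hz w hw) hr).filter_mono nhdsWithin_le_nhds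
  have h2 : ContinuousOn (fun p : E × E => Real.artanh (kob (shell E a) p.1 p.2))
      (shell E a ×ˢ shell E a) := by
    intro p hp
    have h3 := kob_nonneg (shell E a) p.1 p.2
    have h4 := kob_lt_one (hall p.1 hp.1 p.2 hp.2)
    exact ContinuousAt.comp_continuousWithinAt
      (f := fun p : E × E => kob (shell E a) p.1 p.2) (continuousAt_artanh (by linarith) h4)
      (hk p hp)
  apply h2.congr
  intro p hp
  exact lempert_eq (hall p.1 hp.1 p.2 hp.2)

end Pool.Agent.V1171.LC
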